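import Pool.Agent.LibEinU.U_Main
import Pool.Agent.LibEinU.CL_Final
import Pool.Agent.LibGM95.M_Perc

/-!
# MP_6ca6db_pr: the Einstein relation for the biased random walk on percolation clusters

For every `d ≥ 2`, every `p > p_c(d)` and every direction, the derivative at `0` of the speed of
the biased random walk on the infinite cluster of bond percolation on `ℤ^d` is the diffusion
constant of the unbiased walk. The diffusion constant is proved to exist, and the relation is also
proved for the mean displacement, for which no existence of the speed is needed.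
-/

open MeasureTheory ProbabilityTheory Filter Topology

namespace Pool.Agent.Results.MP_6ca6db_pr.EinsteinRelation

open Ein99

/-- The critical parameter of bond percolation on `ℤ^d`: the infimum of all parameters for which
the open cluster of the origin is infinite with positive probability. -/
noncomputable def pc (d : ℕ) : unitInterval :=
  sInf {q : unitInterval | 0 < (Pr d q).real {ω : Om d | InfC ω 0}}

/-- The mean speed up to time `n`: the expectation of `X_n · l / n` for the walk with bias `lam`
in direction `l`, under the percolation measure conditioned on `0 ∈ C_∞`. -/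
noncomputable def meanSpeed (d : ℕ) (p : unitInterval) (lam : ℝ) (l : Fin d → ℝ) (n : ℕ) : ℝ :=
  (∫ ω, Pn lam l ω n (fun y => dot l y / n) 0 ∂(nu d p)) / (nu d p).real Set.univ

/-- **The Einstein relation on supercritical percolation clusters.** -/
theorem result (d : ℕ) (hd : 2 ≤ d) (p : unitInterval) (hp : pc d < p) :
    ∃ s : NNReal, ∀ l : Fin d → ℝ, ∑ i, l i ^ 2 = 1 →
      IsDiff d p l s ∧
      (∀ ε : ℝ, 0 < ε → ∀ᶠ lam in 𝓝[>] (0 : ℝ), ∀ᶠ n : ℕ in atTop,
        |meanSpeed d p lam l n / lam - s| ≤ ε) ∧
      ∀ v : ℝ → ℝ, (∀ᶠ lam in 𝓝[>] (0 : ℝ), IsSpeed d p lam l (v lam)) →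
        Tendsto (fun lam : ℝ => v lam / lam) (𝓝[>] 0) (𝓝 (s : ℝ)) := by
  obtain ⟨q, hq, hqp⟩ := sInf_lt_iff.1 hp
  obtain ⟨K, C, c, hH⟩ := hypH_of_perc d hd q p hq hqp
  obtain ⟨s, hs⟩ := CL.clt_iso (by omega : 1 ≤ d) hH
  refine ⟨s, fun l hl => ⟨hs l hl, fun ε hε => ?_, fun v hv => ?_⟩⟩
  · filter_upwards [einstein_n (by omega) hH l hl s (hs l hl) ε hε] with lam h1
    filter_upwards [h1] with n h2
    have h3 : ∀ ω : Om d, Pn lam l ω n (fun y => dot l y / n) 0 = (1 / (n : ℝ)) * DD lam l ω n 0 := by
      intro ω
      have h4 : (fun y : V d => dot l y / (n : ℝ)) = (1 / (n : ℝ)) • dot l := by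
        funext y
        simp only [Pi.smul_apply, smul_eq_mul]
        ring
      rw [h4, Pn_smul]
      unfold DD
      rw [BSpeed_dot_zero]
      simp
    have h5 : meanSpeed d p lam l n / lam = Dn p lam l n / (tha d p * lam) := by
      unfold meanSpeed Dn tha
      simp only [h3]
      rw [integral_const_mul, div_div]
    rw [h5]
    exact h2
  · exact einstein_of_hyp (by omega) hH l hl v hv s (hs l hl)

end Pool.Agent.Results.MP_6ca6db_pr.EinsteinRelation
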